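import Pool.Agent.H82.Cyc.CF

/-!
# MP_7237d1_co: the question for claw-free red graphs

`ArrowCF k n N` : every claw-free graph `G` on `N` vertices contains `C_k`, or its complement
contains `K_n`; `ramseyCF k n` is the least such `N`, i.e. `r(C_k, K_n)` with the red graph
restricted to claw-free graphs.  `Overfull k M` : there is a graph on `2 M + 1` vertices of maximum
degree at most `k - 1`, with more than `(k - 1) M` edges, and with girth larger than `k`.
-/

set_option autoImplicit false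

open Pool.Agent.H82.Cyc

namespace Pool.Agent.Results.MP_7237d1_co.ClawFree

theorem result :
    -- the exact criterion
    (∀ k n : ℕ, 3 ≤ k → 1 ≤ n →
      (ramseyCF k n = (k - 1) * (n - 1) + 1 ↔ ∀ M < n, ¬ Overfull k M)) ∧
    -- explicit ranges
    (∀ k n : ℕ, 3 ≤ k → 1 ≤ n → 2 * (n - 1) < (k - 2) ^ (k / 2) →
      ramseyCF k n = (k - 1) * (n - 1) + 1) ∧
    (∀ k n : ℕ, 3 ≤ k → (2 * k) ^ (3 * (k / 4 + 1)) < n →
      (k - 1) * (n - 1) + 1 < ramseyCF k n) ∧
    -- the threshold lies between `4/3 - ε` and `2 + ε` times `log n / log log n`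
    (∀ ε : ℝ, 0 < ε → ∃ n₀ : ℕ, ∀ n : ℕ, n₀ ≤ n → ∀ k : ℕ, 3 ≤ k →
      ((k : ℝ) ≤ (4 / 3 - ε) * Real.log n / Real.log (Real.log n) →
        (k - 1) * (n - 1) + 1 < ramseyCF k n) ∧
      ((2 + ε) * Real.log n / Real.log (Real.log n) ≤ k →
        ramseyCF k n = (k - 1) * (n - 1) + 1)) := by
  refine ⟨cf_iff, cf_small, cf_large, fun ε hε => ?_⟩
  obtain ⟨n₁, h₁⟩ := numeric_low ε hε
  obtain ⟨n₂, h₂⟩ := numeric_high ε hε
  refine ⟨max 1 (max n₁ n₂), fun n hn k hk => ⟨fun h => ?_, fun h => ?_⟩⟩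
  · exact cf_large k n hk (h₁ n (by omega) k hk h)
  · exact cf_small k n hk (by omega) (h₂ n (by omega) k hk h)

end Pool.Agent.Results.MP_7237d1_co.ClawFree
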