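import Pool.Agent.H82.Cyc.Asym

/-!
# MP_7237d1_co: `k*(n) ≥ (4/3 - o(1)) log n / log log n`

`Arrow k n N` : every graph `G` on `N` vertices contains `C_k`, or its complement contains `K_n`
(red/blue colourings of `K_N`); `ramseyCK k n` is the least such `N`, i.e. `r(C_k, K_n)`.

The first part is an explicit range in which `r(C_k, K_n) > (k - 1)(n - 1) + 1`; the second part
says that, for large `n`, every `k ≥ 3` with `r(C_k, K_n) = (k - 1)(n - 1) + 1`, in particular the
least one `k*(n)`, is larger than `(4/3 - ε) log n / log log n`.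
-/

set_option autoImplicit false

open Pool.Agent.H82.Cyc

namespace Pool.Agent.Results.MP_7237d1_co.FourThirds

theorem result :
    (∀ k n : ℕ, 3 ≤ k → (2 * k) ^ (3 * (k / 4 + 1)) < n →
      (k - 1) * (n - 1) + 1 < ramseyCK k n) ∧
    (∀ ε : ℝ, 0 < ε → ∃ n₀ : ℕ, ∀ n : ℕ, n₀ ≤ n → ∀ k : ℕ, 3 ≤ k →
      ramseyCK k n = (k - 1) * (n - 1) + 1 →
      (4 / 3 - ε) * Real.log n / Real.log (Real.log n) < k) := by
  refine ⟨explicit, fun ε hε => ?_⟩
  obtain ⟨n₀, h⟩ := asym ε hε
  refine ⟨n₀, fun n hn k hk hr => ?_⟩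
  by_contra hlt
  push Not at hlt
  exact absurd (h n hn k hk hlt) (by rw [hr]; exact lt_irrefl _)

end Pool.Agent.Results.MP_7237d1_co.FourThirds
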