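import Pool.Agent.H30.CR.Main

/-!
# MP_7237d1_co: an explicit upper constant for all graphs

`Arrow k n N` : every graph `G` on `N` vertices contains the cycle `C_k`, or its complement contains `K_n`; `ramseyCK k n` is the
least such `N`, i.e. `r(C_k, K_n)`.
-/

set_option autoImplicit false

open Pool.Agent.H82.Cyc

namespace Pool.Agent.Results.MP_7237d1_co.UpperConstant

theorem result : ∀ ε : ℝ, 0 < ε → ∃ n₀ : ℕ, ∀ n : ℕ, n₀ ≤ n → ∀ k : ℕ,
    (22 + ε) * Real.log n / Real.log (Real.log n) ≤ k →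
    ramseyCK k n = (k - 1) * (n - 1) + 1 :=
  Pool.Agent.H30.CR.main

end Pool.Agent.Results.MP_7237d1_co.UpperConstant
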